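import Mathlib
import Pool.Agent.MP_217c9a_co.Main

set_option autoImplicit false

open Finset

namespace Pool.Agent.Results.MP_217c9a_co.LinearRange

open Pool.Agent.MP_217c9a_co

/-- There is an absolute constant c such that for k > t ≥ 1 and n ≥ c k t, in every
t-intersecting family of k-subsets of an n-set the (k+2)-th largest degree is at most
C(n-t-1, k-t-1). The vertices are listed by a permutation σ in non-increasing order of degree,
and the (k+2)-th of them has index k+1. -/
theorem result :
    ∃ c : ℝ, 0 < c ∧ ∀ n k t : ℕ, 1 ≤ t → t < k → c * k * t ≤ n →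
      ∀ F : Finset (Finset (Fin n)), (∀ A ∈ F, A.card = k) →
        (∀ A ∈ F, ∀ B ∈ F, t ≤ (A ∩ B).card) →
        ∀ σ : Equiv.Perm (Fin n),
          (Antitone fun i => (F.filter fun A => σ i ∈ A).card) →
          ∃ h : k + 1 < n,
            (F.filter fun A => σ ⟨k + 1, h⟩ ∈ A).card ≤ (n - t - 1).choose (k - t - 1) := by
  refine ⟨10000, by norm_num, fun n k t ht htk hn F hF hI σ hσ => ?_⟩
  have hn' : 10000 * k * t ≤ n := by exact_mod_cast hn
  obtain ⟨b, rfl⟩ : ∃ b, k = t + (b + 1) := ⟨k - t - 1, by omega⟩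
  have hkt : t + (b + 1) ≤ (t + (b + 1)) * t := Nat.le_mul_of_pos_right _ ht
  have hn'' : 10000 * ((t + (b + 1)) * t) ≤ n := by rwa [← mul_assoc]
  have h : t + (b + 1) + 1 < n := by omega
  refine ⟨h, ?_⟩
  have e : t + (b + 1) - t - 1 = b := by omega
  rw [e]
  set f : Finset (Fin n) → Finset ℕ := fun A => A.map Fin.valEmbedding with hf
  have hfi : Function.Injective f := map_injective _
  have hdg : ∀ v : Fin n, dg (F.image f) v = (F.filter fun A => v ∈ A).card := by
    intro v
    unfold dg
    rw [filter_image, card_image_of_injective _ hfi]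
    congr 1
    refine filter_congr fun A _ => ?_
    exact mem_map' Fin.valEmbedding
  obtain ⟨y, hy, hy'⟩ := main_nat (n := n) (t := t) (b := b) (F := F.image f) (by
      intro S hS
      obtain ⟨A, hA, rfl⟩ := mem_image.1 hS
      refine ⟨fun x hx => ?_, by rw [hf, card_map]; exact hF A hA⟩
      obtain ⟨a, -, rfl⟩ := mem_map.1 hx
      exact mem_range.2 a.2) (by
      intro S hS S' hS'
      obtain ⟨A, hA, rfl⟩ := mem_image.1 hS
      obtain ⟨B, hB, rfl⟩ := mem_image.1 hS'
      rw [hf, ← map_inter, card_map]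
      exact hI A hA B hB) ht hn'
    (X := f ((Iic (⟨t + (b + 1) + 1, h⟩ : Fin n)).map σ.toEmbedding)) (by
      intro x hx
      obtain ⟨a, -, rfl⟩ := mem_map.1 hx
      exact mem_range.2 a.2) (by
      rw [hf, card_map, card_map, Fin.card_Iic])
  obtain ⟨a, ha, rfl⟩ := mem_map.1 hy
  obtain ⟨i, hi, rfl⟩ := mem_map.1 ha
  have h1 := hσ (mem_Iic.1 hi)
  have h2 := hdg (σ i)
  exact le_trans h1 (le_trans (le_of_eq h2.symm) hy')

end Pool.Agent.Results.MP_217c9a_co.LinearRange
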